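import Pool.Agent.RCM.StmtsA

/-!
# Row END of the squad RCA (helper81): choice of the colour `c`
-/

set_option autoImplicit false

namespace Pool.Agent.RCM.H81

open Set

universe u

theorem endR (hrrb : RrbStmt.{u}) (hgnb : GnbStmt.{u}) (hglo : GloStmt.{u}) (hlcr : LcrStmt.{u})
    (hitr : ItrStmt.{u}) : EndStmt.{u} := by
  intro E K _ _ M N κ s t P X T m v D ζ q hCol hMx hSt hUn hm hle hRob hq l hl
  obtain ⟨F, hF⟩ : ∃ F, F = Gn M N κ P X ((m + v) * (m + 1) + m + 1) T := ⟨_, rfl⟩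
  rw [← hF] at hq
  rw [hq] at hl
  obtain ⟨Z, b, hZ, -, hsum, hb⟩ :=
    hitr E K M N κ s t P X T m v D F hCol hMx hSt hF hRob l hl
  obtain ⟨hmon, -, -⟩ := hgnb E K M N κ X
  have hGF : Gn M N κ P X m T ⊆ F := by
    rw [hF]
    exact hmon P _ _ T (by omega)
  have hGne : (Gn M N κ P X m T).Nonempty := by
    obtain ⟨c, hc1, hc2⟩ := hUn
    exact ⟨c, hc1, T, Rn.rfl m T, hc2⟩
  have hG := hglo E K M N κ s t P X T m ζ hCol hMx hSt hUn hm hle
  obtain ⟨c, hcG, hcmin⟩ := Set.exists_min_image (Gn M N κ P X m T) b (Set.toFinite _) hGne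
  have hbc : b c * (Gn M N κ P X m T).ncard ≤ l * D := by
    classical
    have h1 : b c * (Gn M N κ P X m T).ncard ≤
        ∑ a ∈ (Set.toFinite (Gn M N κ P X m T)).toFinset, b a := by
      rw [Set.ncard_eq_toFinset_card _ (Set.toFinite _), Nat.mul_comm, ← smul_eq_mul]
      exact Finset.card_nsmul_le_sum _ _ _ fun a ha => hcmin a (by simpa using ha)
    refine h1.trans (le_trans ?_ hsum)
    exact Finset.sum_le_sum_of_subset (Finset.subset_univ _)
  obtain ⟨hL, hL2⟩ := hlcr E K M N κ s t P X T ((m + v) * (m + 1)) m hCol hMx hSt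
  obtain ⟨hs, hr⟩ := hL F c
  have h2 := hL2 T P c (Op.rfl _ T P) hcG
  rw [← hF] at h2
  have h3 := hb c (hGF hcG)
  have h4 : rr M (Lc N κ F T c) ≤ rr M (Lc N κ F T c ∪ Z ∪ P) :=
    (hrrb E M _ _).1 (fun x hx => Or.inl (Or.inl hx))
  refine ⟨b c, (Nat.mul_le_mul_left _ hG).trans hbc, ?_⟩
  rw [hq]
  omega

end Pool.Agent.RCM.H81
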